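import Mathlib

set_option autoImplicit false

namespace Pool.Agent.H6

/-- The affine map `t ↦ u t + v` over a ring `R`, with `u` a unit. -/
@[ext]
structure Aff (R : Type*) [Ring R] where
  /-- the linear part -/
  u : Rˣ
  /-- the translation part -/
  v : R

namespace Aff

variable {R : Type*} [Ring R]

instance : Mul (Aff R) := ⟨fun a b => ⟨a.u * b.u, a.v + a.u * b.v⟩⟩
instance : One (Aff R) := ⟨⟨1, 0⟩⟩
instance : Inv (Aff R) := ⟨fun a => ⟨a.u⁻¹, -(((a.u⁻¹ : Rˣ) : R) * a.v)⟩⟩

@[simp] theorem mul_u (a b : Aff R) : (a * b).u = a.u * b.u := rfl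
@[simp] theorem mul_v (a b : Aff R) : (a * b).v = a.v + a.u * b.v := rfl
@[simp] theorem one_u : (1 : Aff R).u = 1 := rfl
@[simp] theorem one_v : (1 : Aff R).v = 0 := rfl
@[simp] theorem inv_u (a : Aff R) : (a⁻¹).u = a.u⁻¹ := rfl
@[simp] theorem inv_v (a : Aff R) : (a⁻¹).v = -(((a.u⁻¹ : Rˣ) : R) * a.v) := rfl

instance : Group (Aff R) :=
  Group.ofLeftAxioms
    (by
      intro a b c
      ext
      · simp [mul_assoc]
      · simp [mul_assoc, mul_add, add_assoc])
    (by
      intro a
      ext <;> simp)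
    (by
      intro a
      ext <;> simp)

/-- Pure translations. -/
def tr (t : R) : Aff R := ⟨1, t⟩

@[simp] theorem tr_u (t : R) : (tr t).u = 1 := rfl
@[simp] theorem tr_v (t : R) : (tr t).v = t := rfl

theorem tr_mul (s t : R) : tr s * tr t = tr (s + t) := by
  ext <;> simp

theorem tr_inv (t : R) : (tr t)⁻¹ = tr (-t) := by
  ext <;> simp

theorem tr_zero : tr (0 : R) = 1 := rfl

theorem conj_tr (g : Aff R) (t : R) : g * tr t * g⁻¹ = tr (g.u * t) := by
  ext
  · simp
  · simp

end Aff

open Aff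

variable {R : Type*} [Ring R]

/-- The laws in countably many variables satisfied by the group of affine maps with linear part
in `Q`. -/
def lawSet (Q : Subgroup Rˣ) : Set (FreeGroup ℕ) :=
  {w | ∀ f : ℕ → Aff R, (∀ n, (f n).u ∈ Q) → FreeGroup.lift f w = 1}

/-- The words in two variables that are laws of the group of affine maps with linear part
in `Q`. -/
def lawSubgroup (Q : Subgroup Rˣ) : Subgroup (FreeGroup (Fin 2)) where
  carrier := {w | ∀ f : Fin 2 → Aff R, (∀ n, (f n).u ∈ Q) → FreeGroup.lift f w = 1}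
  mul_mem' := by
    intro a b ha hb f hf
    rw [map_mul, ha f hf, hb f hf, one_mul]
  one_mem' := by
    intro f hf
    exact map_one _
  inv_mem' := by
    intro a ha f hf
    rw [map_inv, ha f hf, inv_one]

theorem mem_lawSubgroup {Q : Subgroup Rˣ} {w : FreeGroup (Fin 2)} :
    w ∈ lawSubgroup Q ↔ ∀ f : Fin 2 → Aff R, (∀ n, (f n).u ∈ Q) → FreeGroup.lift f w = 1 :=
  Iff.rfl

theorem lift_u_mem {ι : Type*} (Q : Subgroup Rˣ) (f : ι → Aff R) (hf : ∀ n, (f n).u ∈ Q)
    (w : FreeGroup ι) : (FreeGroup.lift f w).u ∈ Q := by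
  induction w using FreeGroup.induction_on with
  | C1 => rw [map_one]; exact Q.one_mem
  | of x => rw [FreeGroup.lift_apply_of]; exact hf x
  | inv_of x ih => rw [map_inv]; exact Q.inv_mem ih
  | mul x y hx hy => rw [map_mul]; exact Q.mul_mem hx hy

theorem lift_lift {ι κ G : Type*} [Group G] (f : κ → G) (g : ι → FreeGroup κ)
    (w : FreeGroup ι) :
    FreeGroup.lift f (FreeGroup.lift g w) = FreeGroup.lift (fun i => FreeGroup.lift f (g i)) w := by
  induction w using FreeGroup.induction_on with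
  | C1 => simp
  | of x => simp
  | inv_of x ih => simp
  | mul x y hx hy => rw [map_mul, map_mul, hx, hy, map_mul]

theorem lawSubgroup_eq_closure (Q : Subgroup Rˣ) :
    lawSubgroup Q = Subgroup.closure
        {x : FreeGroup (Fin 2) | ∃ (f : ℕ → FreeGroup (Fin 2)) (w : FreeGroup ℕ),
          w ∈ lawSet Q ∧ FreeGroup.lift f w = x} := by
  apply le_antisymm
  · intro w hw
    apply Subgroup.subset_closure
    refine ⟨fun n => if h : n < 2 then FreeGroup.of ⟨n, h⟩ else 1,
      FreeGroup.lift (fun i : Fin 2 => FreeGroup.of (i : ℕ)) w, ?_, ?_⟩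
    · intro f hf
      rw [lift_lift]
      simp only [FreeGroup.lift_apply_of]
      exact hw (fun i => f i) (fun i => hf i)
    · rw [lift_lift]
      simp only [FreeGroup.lift_apply_of]
      have : (fun i : Fin 2 => if h : (i : ℕ) < 2 then FreeGroup.of (⟨(i : ℕ), h⟩ : Fin 2) else 1)
          = FreeGroup.of := by
        funext i
        rw [dif_pos i.2]
      rw [this]
      exact FreeGroup.lift_of_apply w
  · rw [Subgroup.closure_le]
    rintro x ⟨f, w, hw, rfl⟩ g hg
    rw [lift_lift]
    exact hw _ (fun n => lift_u_mem Q g hg (f n))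

end Pool.Agent.H6
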