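import Pool.Agent.H6.Words2

set_option autoImplicit false

namespace Pool.Agent.H6

open Aff

variable {R : Type*} [Ring R]

/-- Evaluation of words depends linearly on the translation parts. -/
theorem lin_struct (p q : Rˣ) (w : FreeGroup (Fin 2)) :
    ∃ (u : Rˣ) (D1 D2 : R), ∀ e1 e2 : R,
      FreeGroup.lift (![⟨p, e1⟩, ⟨q, e2⟩] : Fin 2 → Aff R) w = ⟨u, D1 * e1 + D2 * e2⟩ := by
  induction w using FreeGroup.induction_on with
  | C1 =>
    refine ⟨1, 0, 0, fun e1 e2 => ?_⟩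
    rw [map_one]
    ext <;> simp
  | of x =>
    fin_cases x
    · refine ⟨p, 1, 0, fun e1 e2 => ?_⟩
      simp
    · refine ⟨q, 0, 1, fun e1 e2 => ?_⟩
      simp
  | inv_of x ih =>
    obtain ⟨u, D1, D2, h⟩ := ih
    refine ⟨u⁻¹, -((u⁻¹ : Rˣ) * D1), -((u⁻¹ : Rˣ) * D2), fun e1 e2 => ?_⟩
    rw [map_inv, h e1 e2]
    ext
    · simp
    · simp only [Aff.inv_v]
      noncomm_ring
  | mul x y hx hy =>
    obtain ⟨u, D1, D2, h⟩ := hx
    obtain ⟨u', D1', D2', h'⟩ := hy
    refine ⟨u * u', D1 + u * D1', D2 + u * D2', fun e1 e2 => ?_⟩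
    rw [map_mul, h e1 e2, h' e1 e2]
    ext
    · simp
    · simp only [Aff.mul_v]
      noncomm_ring

theorem eta_fin2 (f : Fin 2 → Aff R) :
    f = ![⟨(f 0).u, (f 0).v⟩, ⟨(f 1).u, (f 1).v⟩] := by
  funext i
  fin_cases i <;> rfl

theorem ehat_lin (p q e1 e2 s : R) :
    ehat p q (e1 + 2 * (q * del p q) * s) (e2 + a2 q * s) =
      ehat p q e1 e2 + ((1 - q * q) * (2 * (q * del p q)) + (p - 1) * ((1 + q) * a2 q)) * s := by
  unfold ehat
  noncomm_ring

section main

variable (Q : Subgroup Rˣ)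
  (P1 : ∀ p ∈ Q, ∀ q ∈ Q, p * q = q * p ∨ (p : R) * q = -(q * p))
  (P2 : ∀ p ∈ Q, ∀ q ∈ Q, (p : R) * q = -(q * p) → ∀ t : R, t * del (p : R) q = 0 → t = 0)
  (h7 : (7 : R) = 0)

/-- In the commuting case the endomorphism does not change the values. -/
theorem lift_gal_comm (f : Fin 2 → Aff R) (h : (f 0).u * (f 1).u = (f 1).u * (f 0).u) :
    (fun i => FreeGroup.lift f (gal i)) = f := by
  have hx : FreeGroup.lift f wx = ⟨(f 0).u, (f 0).v⟩ := by simp [wx]
  have hy : FreeGroup.lift f wy = ⟨(f 1).u, (f 1).v⟩ := by simp [wy]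
  funext i
  fin_cases i
  · change FreeGroup.lift f (nu1 * wx) = f 0
    rw [map_mul, comm_nu1 _ _ _ _ _ hx hy h, one_mul, hx]
  · change FreeGroup.lift f (nu2 * wy) = f 1
    rw [map_mul, comm_nu2 _ _ _ _ _ hx hy h, one_mul, hy]

include h7 in
theorem lift_gal_anti (p q : Rˣ) (e1 e2 : R) (h : (p : R) * q = -(q * p)) :
    (fun i => FreeGroup.lift (![⟨p, e1⟩, ⟨q, e2⟩] : Fin 2 → Aff R) (gal i)) =
      ![⟨p, e1 + 2 * (q * del (p : R) q) * ehat (p : R) q e1 e2⟩,
        ⟨q, e2 + a2 (q : R) * ehat (p : R) q e1 e2⟩] := by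
  have hx : FreeGroup.lift (![⟨p, e1⟩, ⟨q, e2⟩] : Fin 2 → Aff R) wx = ⟨p, e1⟩ := by simp [wx]
  have hy : FreeGroup.lift (![⟨p, e1⟩, ⟨q, e2⟩] : Fin 2 → Aff R) wy = ⟨q, e2⟩ := by simp [wy]
  funext i
  fin_cases i
  · change FreeGroup.lift (![⟨p, e1⟩, ⟨q, e2⟩] : Fin 2 → Aff R) (nu1 * wx) = _
    rw [map_mul, anti_nu1 _ _ _ _ _ hx hy h, hx]
    ext
    · simp
    · simp [add_comm]
  · change FreeGroup.lift (![⟨p, e1⟩, ⟨q, e2⟩] : Fin 2 → Aff R) (nu2 * wy) = _
    rw [map_mul, anti_nu2 _ _ _ _ _ hx hy h h7, hy]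
    ext
    · simp
    · simp [add_comm]

include P1 P2 h7 in
/-- The endomorphism is injective modulo the law subgroup. -/
theorem gal_injective (w : FreeGroup (Fin 2)) (hw : FreeGroup.lift gal w ∈ lawSubgroup Q) :
    w ∈ lawSubgroup Q := by
  intro f hf
  rcases P1 _ (hf 0) _ (hf 1) with hc | ha
  · have := hw f hf
    rwa [lift_lift, lift_gal_comm f hc] at this
  · obtain ⟨u, D1, D2, hD⟩ := lin_struct (f 0).u (f 1).u w
    have key : ∀ e1 e2 : R, (⟨u, D1 * (e1 + 2 * ((f 1).u * del ((f 0).u : R) (f 1).u) *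
        ehat ((f 0).u : R) (f 1).u e1 e2) +
        D2 * (e2 + a2 ((f 1).u : R) * ehat ((f 0).u : R) (f 1).u e1 e2)⟩ : Aff R) = 1 := by
      intro e1 e2
      have h1 := hw (![⟨(f 0).u, e1⟩, ⟨(f 1).u, e2⟩] : Fin 2 → Aff R) (by
        intro n
        fin_cases n
        · exact hf 0
        · exact hf 1)
      rw [lift_lift, lift_gal_anti h7 _ _ _ _ ha, hD] at h1
      exact h1
    set p : R := ((f 0).u : R) with hp
    set q : R := ((f 1).u : R) with hq
    set A1 : R := 2 * (q * del p q) with hA1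
    set A2 : R := a2 q with hA2
    set lam : R := D1 * A1 + D2 * A2 with hlam
    have hu : u = 1 := congrArg Aff.u (key 0 0)
    have k1 : D1 + lam * (1 - q * q) = 0 := by
      have := congrArg Aff.v (key 1 0)
      simp only [Aff.one_v, ehat] at this
      rw [← this, hlam]
      noncomm_ring
    have k2 : D2 + lam * ((p - 1) * (1 + q)) = 0 := by
      have := congrArg Aff.v (key 0 1)
      simp only [Aff.one_v, ehat] at this
      rw [← this, hlam]
      noncomm_ring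
    have hlam0 : lam * del p q = 0 := by
      have hs := star_identity p q ha
      have e1 : D1 = -(lam * (1 - q * q)) := eq_neg_of_add_eq_zero_left k1
      have e2 : D2 = -(lam * ((p - 1) * (1 + q))) := eq_neg_of_add_eq_zero_left k2
      have h3 : lam = -(lam * ((1 - q * q) * A1 + (p - 1) * ((1 + q) * A2))) := by
        calc lam = D1 * A1 + D2 * A2 := hlam
          _ = -(lam * (1 - q * q)) * A1 + -(lam * ((p - 1) * (1 + q))) * A2 := by
              rw [← e1, ← e2]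
          _ = _ := by noncomm_ring
      rw [hs] at h3
      have h4 : lam * del p q = lam + lam * (del p q - 1) := by noncomm_ring
      rw [h4]
      nth_rewrite 1 [h3]
      exact neg_add_cancel _
    have hl : lam = 0 := P2 _ (hf 0) _ (hf 1) ha lam hlam0
    rw [hl, zero_mul, add_zero] at k1 k2
    rw [eta_fin2 f, hD, hu, k1, k2]
    ext <;> simp

include P1 h7 in
/-- The endomorphism sends `wh` to the first generator modulo the law subgroup. -/
theorem gal_wh : (FreeGroup.of 0)⁻¹ * FreeGroup.lift gal wh ∈ lawSubgroup Q := by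
  intro f hf
  rw [map_mul, map_inv, FreeGroup.lift_apply_of, inv_mul_eq_one]
  rcases P1 _ (hf 0) _ (hf 1) with hc | ha
  · rw [lift_lift, lift_gal_comm f hc]
    have hx : FreeGroup.lift f wx = ⟨(f 0).u, (f 0).v⟩ := by simp [wx]
    have hy : FreeGroup.lift f wy = ⟨(f 1).u, (f 1).v⟩ := by simp [wy]
    rw [comm_wh _ _ _ _ _ hx hy hc]
    simp [wx]
  · rw [eta_fin2 f, lift_lift, lift_gal_anti h7 _ _ _ _ ha]
    rw [anti_wh (FreeGroup.lift _) (f 0).u (f 1).u _ _ (by simp [wx]; rfl) (by simp [wy]; rfl) ha]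
    rw [ehat_lin, star_identity _ _ ha]
    simp only [Matrix.cons_val_zero]
    ext
    · rfl
    · simp only
      noncomm_ring

end main

end Pool.Agent.H6
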