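import Pool.Agent.H6.Skew2
import Pool.Agent.H6.Inject

set_option autoImplicit false

namespace Pool.Agent.H6

open LaurentPolynomial Aff

section generic

variable {R : Type*} [Ring R]

/-- the row of `wh` -/
def rbar (p q e1 e2 : R) : R := -(2 * (q * ehat p q e1 e2)) + e1

/-- `φ` -/
def phi (q : R) : R := 1 - 2 * (q * (1 - q * q))

/-- `φ` at `-q` -/
def phib (q : R) : R := 1 + 2 * (q * (1 - q * q))

theorem rbar_eq (p q e1 e2 : R) :
    rbar p q e1 e2 = phi q * e1 - 2 * (q * ((p - 1) * ((1 + q) * e2))) := by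
  unfold rbar phi ehat
  noncomm_ring

theorem rbar_mul (p q e1 e2 t : R) : rbar p q (e1 * t) (e2 * t) = rbar p q e1 e2 * t := by
  unfold rbar ehat
  noncomm_ring

theorem kerA (p q : R) (hpq : p * q = -(q * p)) :
    rbar p q (2 * (q * (phib q * ((p - 1) * (1 + q))))) (phi q * phib q) = 0 := by
  have e1 : q * p = -(p * q) := by rw [hpq, neg_neg]
  have e2 : ∀ t : R, q * (p * t) = -(p * (q * t)) := by
    intro t
    rw [← mul_assoc, e1, neg_mul, mul_assoc]
  rw [rbar_eq]
  unfold phi phib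
  noncomm_ring
  simp only [e1, e2, mul_neg, neg_neg, smul_neg]
  abel

theorem kerB (p q : R) (hpq : p * q = -(q * p)) :
    rbar p q (2 * (q * ((1 - q * q) * (p * p - 1)))) ((1 - q) * ((p + 1) * phi q)) = 0 := by
  have e1 : q * p = -(p * q) := by rw [hpq, neg_neg]
  have e2 : ∀ t : R, q * (p * t) = -(p * (q * t)) := by
    intro t
    rw [← mul_assoc, e1, neg_mul, mul_assoc]
  rw [rbar_eq]
  unfold phi
  noncomm_ring
  simp only [e1, e2, mul_neg, neg_neg, smul_neg]
  abel

end generic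

noncomputable section

/-- evaluation of Laurent polynomials at `y = 3` -/
def ev : LB →+* ZMod 7 := LaurentPolynomial.eval₂ (RingHom.id (ZMod 7)) (Units.mk0 3 (by decide))

theorem ev_T1 : ev (T 1) = 3 := by
  rw [ev, LaurentPolynomial.eval₂_T]
  simp

theorem ev_tau_T1 : ev (tauHom (T 1)) = -3 := by
  rw [tauHom_T1, map_neg, ev_T1]

/-- `φ` as a Laurent polynomial -/
def phiB : LB := 1 - 2 * (T 1 * (1 - T 1 * T 1))

/-- `φ(-y)` as a Laurent polynomial -/
def phibB : LB := 1 + 2 * (T 1 * (1 - T 1 * T 1))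

theorem io_two : io 2 = 2 := io_natCast 2

theorem phi_Y : phi (YU : TT) = io phiB := by
  rw [phi, phiB, YU_val, io_sub, io_mul, io_mul, io_sub, io_mul, io_one, io_two]

theorem phib_Y : phib (YU : TT) = io phibB := by
  rw [phib, phibB, YU_val, io_add, io_mul, io_mul, io_sub, io_mul, io_one, io_two]

theorem ev_phiB : ev phiB = 0 := by
  rw [phiB, map_sub, map_mul, map_mul, map_sub, map_mul, map_one, ev_T1,
    map_ofNat ev 2]
  decide

theorem ev_tau_phiB : ev (tauHom phiB) = 2 := by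
  simp only [phiB, map_sub, map_mul, map_one, map_ofNat, ev_tau_T1]
  decide

theorem phiB_ne_zero : phiB ≠ 0 := by
  intro h
  have := ev_tau_phiB
  rw [h, map_zero, map_zero] at this
  exact absurd this (by decide)

theorem phibB_ne_zero : phibB ≠ 0 := by
  intro h
  have h2 : ev phibB = 2 := by
    rw [phibB, map_add, map_mul, map_mul, map_sub, map_mul, map_one, ev_T1, map_ofNat ev 2]
    decide
  rw [h, map_zero] at h2
  exact absurd h2 (by decide)

theorem core (al0 al1 be0 be1 s1 s2 : TT)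
    (h : ∀ e1 e2 : TT,
      e1 = al0 * rbar (XU : TT) YU e1 e2 + be0 * (s1 * e1 + s2 * e2) ∧
      e2 = al1 * rbar (XU : TT) YU e1 e2 + be1 * (s1 * e1 + s2 * e2)) : False := by
  obtain ⟨hA1, hA2⟩ := h _ _
    |> (fun k => (k : _ = al0 * rbar (XU : TT) YU
      (2 * ((YU : TT) * (phib (YU : TT) * (((XU : TT) - 1) * (1 + (YU : TT))))))
      (phi (YU : TT) * phib (YU : TT)) + be0 * _ ∧ _ = _))
  rw [kerA _ _ XY_anti, mul_zero, zero_add] at hA1 hA2
  set ta : TT := s1 * (2 * ((YU : TT) * (phib (YU : TT) * (((XU : TT) - 1) * (1 + (YU : TT)))))) +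
    s2 * (phi (YU : TT) * phib (YU : TT)) with hta
  have hne : phi (YU : TT) * phib (YU : TT) ≠ 0 := by
    rw [phi_Y, phib_Y, ← io_mul]
    intro h0
    exact mul_ne_zero phiB_ne_zero phibB_ne_zero (sg_eq_zero.mp h0)
  have hta0 : ta ≠ 0 := by
    intro h0
    rw [h0, mul_zero] at hA2
    exact hne hA2
  -- `be1` is a monomial
  obtain ⟨g, b, hb⟩ := TT_monomial (f := be1) (g := ta) (c := 1) (by rw [← hA2]; exact hne) (by
    intro x hx
    rw [← hA2, phi_Y, phib_Y, ← io_mul, io, cf_sg, if_neg (fun h => hx h.symm)])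
  -- the kernel relation
  have hr : rbar (XU : TT) YU be0 be1 = 0 := by
    have h1 : rbar (XU : TT) YU be0 be1 * ta = 0 := by
      rw [← rbar_mul, ← hA1, ← hA2]
      exact kerA _ _ XY_anti
    rcases TT_eq_zero h1 with h2 | h2
    · exact h2
    · exact absurd h2 hta0
  rw [rbar_eq, sub_eq_zero] at hr
  have hone : (1 : TT) + (YU : TT) = io (1 + T 1) := by rw [io_add, io_one, YU_val]
  have hrhs : (2 : TT) * ((YU : TT) * (((XU : TT) - 1) * ((1 + (YU : TT)) * be1))) =
      sg (gx * g) (2 * (T 1 * tauHom ((1 + T 1) * b))) - sg g (2 * (T 1 * ((1 + T 1) * b))) := by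
    rw [hone, hb, io, sg_mul_sg, one_smul, one_mul, sub_mul, one_mul, XU_val, sg_mul_sg, one_mul,
      gx, act_gen, mul_sub, YU_val, io, sg_mul_sg, sg_mul_sg, one_smul, one_smul, one_mul,
      one_mul, ← io_two, io, mul_sub, sg_mul_sg, sg_mul_sg, one_smul, one_smul, one_mul, one_mul]
  rw [hrhs, phi_Y] at hr
  have hc := congrArg (fun f : TT => cf f (gx * g)) hr
  have hgx : ¬ g = gx * g := by
    intro hh
    exact gx_ne_one (by simpa using hh.symm)
  simp only [io, cf_sg_mul, cf_sub, cf_sg, if_true, if_neg hgx, sub_zero, one_smul] at hc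
  have hev := congrArg ev hc
  rw [map_mul, ev_phiB, zero_mul, map_mul, map_mul, map_mul, map_add, map_one, map_mul, map_add,
    map_one, ev_tau_T1, ev_T1, map_ofNat ev 2] at hev
  have htb : ev (tauHom b) = 0 := by
    have : (2 : ZMod 7) * (3 * ((1 + -3) * ev (tauHom b))) = 2 * ev (tauHom b) := by
      generalize ev (tauHom b) = z
      revert z; decide
    rw [this] at hev
    rcases mul_eq_zero.mp hev.symm with h5 | h5
    · exact absurd h5 (by decide)
    · exact h5
  -- the second kernel vector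
  obtain ⟨-, hB2⟩ := h (2 * ((YU : TT) * ((1 - (YU : TT) * (YU : TT)) *
    ((XU : TT) * (XU : TT) - 1)))) ((1 - (YU : TT)) * (((XU : TT) + 1) * phi (YU : TT)))
  rw [kerB _ _ XY_anti, mul_zero, zero_add, hb] at hB2
  have hl : (1 - (YU : TT)) * (((XU : TT) + 1) * phi (YU : TT)) =
      io (1 - T 1) * (sg gx (tauHom phiB) + sg 1 phiB) := by
    rw [phi_Y, add_mul, one_mul, X_mul_io, io_sub, io_one, YU_val]
    rfl
  have hc2 := congrArg (fun f : TT => cf f 1) hB2
  simp only [hl] at hc2
  simp only [io, cf_sg_mul, cf_add, cf_sg, inv_one, mul_one, one_smul, if_true,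
    if_neg gx_ne_one, zero_add] at hc2
  have hev2 := congrArg (fun z => ev (tauHom z)) hc2
  simp only [map_mul, map_sub, map_one, ev_tau_T1, ev_tau_phiB, htb, zero_mul] at hev2
  exact absurd hev2 (by decide)

end

end Pool.Agent.H6
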