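import Pool.Agent.H6.Words

set_option autoImplicit false

namespace Pool.Agent.H6

open Aff

variable {R : Type*} [Ring R]

theorem star_identity (p q : R) (hpq : p * q = -(q * p)) :
    (1 - q * q) * (2 * (q * del p q)) + (p - 1) * ((1 + q) * a2 q) = del p q - 1 := by
  have e1 : q * p = -(p * q) := by rw [hpq, neg_neg]
  have e2 : ∀ t : R, q * (p * t) = -(p * (q * t)) := by
    intro t
    rw [← mul_assoc, e1, neg_mul, mul_assoc]
  unfold del a2
  have hh : (1 - q * q) * (2 * (q * (1 + (1 + p) * (q * (1 - q * q))))) +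
      (p - 1) * ((1 + q) * ((1 + 2 * (q * (1 - q * q))) * (q * (1 - q)))) -
      (1 + (1 + p) * (q * (1 - q * q)) - 1) = 0 := by
    noncomm_ring
    simp only [e2, mul_neg, neg_neg, smul_neg]
    abel
  rw [sub_eq_zero] at hh
  exact hh

theorem map_comm_word (φ : FreeGroup (Fin 2) →* Aff R) (om : FreeGroup (Fin 2)) (t : R)
    (h : φ om = tr t) :
    φ (wz * om * wz⁻¹ * om⁻¹) = tr ((φ wz).u * t - t) := by
  rw [map_mul, map_conj φ wz om t h, map_inv, h, tr_inv, tr_mul, sub_eq_add_neg]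

theorem u_wz (φ : FreeGroup (Fin 2) →* Aff R) (p q : Rˣ) (e1 e2 : R)
    (hx : φ wx = ⟨p, e1⟩) (hy : φ wy = ⟨q, e2⟩) :
    (φ wz).u = p * q * p⁻¹ * q⁻¹ := by
  rw [wz, map_mul, map_mul, map_mul, map_inv, map_inv, hx, hy]
  rfl

section comm

variable (φ : FreeGroup (Fin 2) →* Aff R) (p q : Rˣ) (e1 e2 : R)
  (hx : φ wx = ⟨p, e1⟩) (hy : φ wy = ⟨q, e2⟩) (hpq : p * q = q * p)

include hx hy hpq

omit hx hy e1 e2 in
theorem comm_sq : (p : R) * (q * q) = q * q * p := by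
  have : p * (q * q) = q * q * p := by
    rw [← mul_assoc, hpq, mul_assoc, hpq, mul_assoc]
  have h2 := congrArg (Units.val) this
  simpa [mul_assoc] using h2

theorem comm_uz : (φ wz).u = 1 := by
  rw [u_wz φ p q e1 e2 hx hy, hpq]
  group

theorem comm_nu1 : φ nu1 = 1 := by
  have h := map_om1 φ p q e1 e2 hx hy (comm_sq p q hpq)
  rw [nu1, map_comm_word φ _ _ h, comm_uz φ p q e1 e2 hx hy hpq]
  simp [tr_zero]

theorem comm_nu2 : φ nu2 = 1 := by
  have h := map_om2 φ p q e1 e2 hx hy (comm_sq p q hpq)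
  rw [nu2, map_comm_word φ _ _ h, comm_uz φ p q e1 e2 hx hy hpq]
  simp [tr_zero]

theorem comm_wh : φ wh = φ wx := by
  have h := map_wt φ p q e1 e2 hx hy (comm_sq p q hpq)
  rw [wh, map_mul, map_comm_word φ _ _ (map_conj φ wy wt _ h),
    comm_uz φ p q e1 e2 hx hy hpq]
  simp [tr_zero]

end comm

section anti

variable (φ : FreeGroup (Fin 2) →* Aff R) (p q : Rˣ) (e1 e2 : R)
  (hx : φ wx = ⟨p, e1⟩) (hy : φ wy = ⟨q, e2⟩) (hpq : (p : R) * q = -(q * p))
  (h7 : (7 : R) = 0)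

theorem anti_sq {p q : R} (hpq : p * q = -(q * p)) : p * (q * q) = q * q * p := by
  rw [← mul_assoc, hpq, neg_mul, mul_assoc, hpq, mul_neg, neg_neg, mul_assoc]

include hx hy hpq

theorem anti_uz : (((φ wz).u : Rˣ) : R) = -1 := by
  rw [u_wz φ p q e1 e2 hx hy]
  have h1 : p * q = -(q * p) := by
    ext
    simpa using hpq
  rw [h1]
  have : -(q * p) * p⁻¹ * q⁻¹ = (-1 : Rˣ) := by
    rw [neg_mul, neg_mul]
    congr 1
    group
  rw [this]
  simp

theorem anti_nu1 : φ nu1 = tr (2 * (q * del (p : R) q) * ehat (p : R) q e1 e2) := by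
  have h := map_om1 φ p q e1 e2 hx hy (anti_sq hpq)
  rw [nu1, map_comm_word φ _ _ h, anti_uz φ p q e1 e2 hx hy hpq]
  congr 1
  noncomm_ring

theorem anti_wh : φ wh = ⟨p, -(2 * (q * ehat (p : R) q e1 e2)) + e1⟩ := by
  have h := map_wt φ p q e1 e2 hx hy (anti_sq hpq)
  have hyu : (φ wy).u = q := by rw [hy]
  rw [wh, map_mul, map_comm_word φ _ _ (map_conj φ wy wt _ h),
    anti_uz φ p q e1 e2 hx hy hpq, hx, hyu]
  ext
  · simp
  · simp only [Aff.mul_v, tr_v, tr_u, Units.val_one, one_mul]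
    noncomm_ring

include h7

theorem anti_nu2 : φ nu2 = tr (a2 (q : R) * ehat (p : R) q e1 e2) := by
  have h := map_om2 φ p q e1 e2 hx hy (anti_sq hpq)
  rw [nu2, map_comm_word φ _ _ h, anti_uz φ p q e1 e2 hx hy hpq]
  congr 1
  have : -1 * (3 * (a2 (q : R) * ehat (p : R) q e1 e2)) - 3 * (a2 (q : R) * ehat (p : R) q e1 e2)
      = a2 (q : R) * ehat (p : R) q e1 e2 - 7 * (a2 (q : R) * ehat (p : R) q e1 e2) := by
    noncomm_ring
  rw [this, h7]
  simp

end anti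

end Pool.Agent.H6
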