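import Pool.Agent.H6.SkewDomain
import Pool.Agent.H6.Words2

set_option autoImplicit false

namespace Pool.Agent.H6

open LaurentPolynomial SkewMonoidAlgebra

noncomputable section

instance fact7 : Fact (Nat.Prime 7) := ⟨by norm_num⟩

/-- Laurent polynomials over the field with seven elements. -/
abbrev LB : Type := LaurentPolynomial (ZMod 7)

/-- the unit `y` -/
def yU : LBˣ where
  val := T 1
  inv := T (-1)
  val_inv := by rw [← T_add]; simp
  inv_val := by rw [← T_add]; simp

/-- the automorphism `y ↦ -y` as a ring homomorphism -/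
def tauHom : LB →+* LB := LaurentPolynomial.eval₂ C (-yU)

theorem tauHom_C (r : ZMod 7) : tauHom (C r) = C r := LaurentPolynomial.eval₂_C _ _ _

theorem tauHom_T1 : tauHom (T 1) = -T 1 := by
  rw [tauHom, LaurentPolynomial.eval₂_T]
  simp [yU]

theorem tauHom_unit (u : LBˣ) (n : ℤ) : tauHom ((u ^ n : LBˣ) : LB) =
    ((Units.map (tauHom : LB →* LB) u ^ n : LBˣ) : LB) := by
  rw [← map_zpow]; rfl

theorem yU_zpow (n : ℤ) : ((yU ^ n : LBˣ) : LB) = T n := by
  have h : ∀ m : ℕ, ((yU ^ m : LBˣ) : LB) = T m := by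
    intro m
    rw [Units.val_pow_eq_pow_val]
    change (T 1 : LB) ^ m = T m
    rw [T_pow]; simp
  have h' : ∀ m : ℕ, ((yU⁻¹ ^ m : LBˣ) : LB) = T (-(m : ℤ)) := by
    intro m
    rw [Units.val_pow_eq_pow_val]
    change (T (-1) : LB) ^ m = T (-(m : ℤ))
    rw [T_pow]; simp
  obtain ⟨m, rfl | rfl⟩ := n.eq_nat_or_neg
  · rw [zpow_natCast]; exact h m
  · rw [zpow_neg, zpow_natCast, ← inv_pow]; exact h' m

theorem tauHom_comp : tauHom.comp tauHom = RingHom.id LB := by
  have hu : Units.map (tauHom : LB →* LB) yU = -yU := by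
    ext1
    exact tauHom_T1
  have hu2 : Units.map (tauHom : LB →* LB) (-yU) = yU := by
    ext1
    change tauHom (-(T 1)) = T 1
    rw [map_neg, tauHom_T1, neg_neg]
  apply AddMonoidAlgebra.ringHom_ext
  · intro r
    change tauHom (tauHom (C r)) = C r
    rw [tauHom_C, tauHom_C]
  · intro m
    change tauHom (tauHom (T m)) = T m
    rw [← yU_zpow, tauHom_unit, hu, tauHom_unit, hu2]

/-- the automorphism `y ↦ -y` -/
def tau : LB ≃+* LB := RingEquiv.ofRingHom tauHom tauHom tauHom_comp tauHom_comp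

theorem tau_apply (b : LB) : tau b = tauHom b := rfl

/-- The infinite cyclic group acts on Laurent polynomials, the generator acting
as `y ↦ -y`. -/
instance act : MulSemiringAction (Multiplicative ℤ) LB :=
  MulSemiringAction.compHom LB (zpowersHom (RingAut LB) tau)

theorem act_gen (b : LB) : (Multiplicative.ofAdd (1 : ℤ)) • b = tauHom b := by
  change (zpowersHom (RingAut LB) tau (Multiplicative.ofAdd 1)) • b = tauHom b
  rw [zpowersHom_apply]
  simp only [toAdd_ofAdd, zpow_one]
  rfl

/-- The skew Laurent polynomial ring `F₇[y, y⁻¹][x, x⁻¹]` with `x y = - y x`. -/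
def TT : Type := SkewMonoidAlgebra LB (Multiplicative ℤ)

instance : Ring TT := inferInstanceAs (Ring (SkewMonoidAlgebra LB (Multiplicative ℤ)))

/-- monomials -/
def sg (g : Multiplicative ℤ) (b : LB) : TT :=
  (SkewMonoidAlgebra.single g b : SkewMonoidAlgebra LB (Multiplicative ℤ))

/-- coefficients -/
def cf (f : TT) (g : Multiplicative ℤ) : LB :=
  SkewMonoidAlgebra.coeff (show SkewMonoidAlgebra LB (Multiplicative ℤ) from f) g

theorem cf_ext {f f' : TT} (h : ∀ g, cf f g = cf f' g) : f = f' :=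
  SkewMonoidAlgebra.ext h

theorem cf_add (f f' : TT) (g : Multiplicative ℤ) : cf (f + f') g = cf f g + cf f' g := by
  change ((show SkewMonoidAlgebra LB (Multiplicative ℤ) from f) +
    (show SkewMonoidAlgebra LB (Multiplicative ℤ) from f')).coeff g = _
  rw [SkewMonoidAlgebra.coeff_add]; rfl

theorem cf_neg (f : TT) (g : Multiplicative ℤ) : cf (-f) g = - cf f g := by
  change (-(show SkewMonoidAlgebra LB (Multiplicative ℤ) from f)).coeff g = _
  rw [SkewMonoidAlgebra.coeff_neg]; rfl

theorem cf_sub (f f' : TT) (g : Multiplicative ℤ) : cf (f - f') g = cf f g - cf f' g := by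
  rw [sub_eq_add_neg, cf_add, cf_neg, ← sub_eq_add_neg]

theorem cf_zero (g : Multiplicative ℤ) : cf 0 g = 0 := rfl

theorem cf_sg (a : Multiplicative ℤ) (b : LB) (g : Multiplicative ℤ) :
    cf (sg a b) g = if a = g then b else 0 :=
  SkewMonoidAlgebra.coeff_single_apply

theorem sg_mul_sg (a a' : Multiplicative ℤ) (b b' : LB) :
    sg a b * sg a' b' = sg (a * a') (b * a • b') :=
  SkewMonoidAlgebra.single_mul_single

theorem one_eq_sg : (1 : TT) = sg 1 1 := rfl

theorem cf_one (g : Multiplicative ℤ) : cf 1 g = if (1 : Multiplicative ℤ) = g then 1 else 0 := by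
  rw [one_eq_sg, cf_sg]

theorem sg_zero (a : Multiplicative ℤ) : sg a 0 = 0 := SkewMonoidAlgebra.single_zero a

theorem sg_eq_zero {a : Multiplicative ℤ} {b : LB} : sg a b = 0 ↔ b = 0 :=
  SkewMonoidAlgebra.single_eq_zero

theorem cf_sg_mul (a : Multiplicative ℤ) (b : LB) (f : TT) (g : Multiplicative ℤ) :
    cf (sg a b * f) g = b * a • cf f (a⁻¹ * g) :=
  SkewMonoidAlgebra.coeff_single_mul b a f g

theorem TT_eq_zero {f g : TT} (h : f * g = 0) : f = 0 ∨ g = 0 :=
  skew_mul_eq_zero (k := LB) (G := Multiplicative ℤ) h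

theorem TT_monomial {f g : TT} {c : Multiplicative ℤ} (hfg : f * g ≠ 0)
    (h : ∀ x, x ≠ c → cf (f * g) x = 0) :
    ∃ (a : Multiplicative ℤ) (r : LB), f = sg a r :=
  skew_monomial_left (k := LB) (G := Multiplicative ℤ) hfg h

theorem TT_one_ne_zero : (1 : TT) ≠ 0 := by
  rw [one_eq_sg]
  intro h
  exact one_ne_zero (sg_eq_zero.mp h)

instance : Nontrivial TT := ⟨⟨1, 0, TT_one_ne_zero⟩⟩

/-- the generator of the cyclic group -/
def gx : Multiplicative ℤ := Multiplicative.ofAdd 1

theorem gx_ne_one : gx ≠ 1 := by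
  intro h
  have := congrArg Multiplicative.toAdd h
  simp [gx] at this

/-- coefficients embed -/
def io (b : LB) : TT := sg 1 b

theorem io_one : io 1 = 1 := rfl
theorem io_add (a b : LB) : io (a + b) = io a + io b := SkewMonoidAlgebra.single_add _ _ _
theorem io_neg (a : LB) : io (-a) = -io a := by
  apply cf_ext
  intro g
  rw [cf_neg, io, io, cf_sg, cf_sg]
  split_ifs <;> simp
theorem io_sub (a b : LB) : io (a - b) = io a - io b := by
  rw [sub_eq_add_neg, io_add, io_neg, ← sub_eq_add_neg]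
theorem io_mul (a b : LB) : io (a * b) = io a * io b := by
  unfold io
  rw [sg_mul_sg]
  simp

end

end Pool.Agent.H6
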