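import Pool.Agent.H6.Skew

set_option autoImplicit false

namespace Pool.Agent.H6

open LaurentPolynomial

noncomputable section

/-- the unit `x` of the skew ring -/
def XU : TTˣ where
  val := sg gx 1
  inv := sg gx⁻¹ 1
  val_inv := by
    rw [sg_mul_sg, one_eq_sg]; simp
  inv_val := by
    rw [sg_mul_sg, one_eq_sg]; simp

/-- the unit `y` of the skew ring -/
def YU : TTˣ where
  val := io (T 1)
  inv := io (T (-1))
  val_inv := by
    rw [← io_mul, ← T_add, ← io_one]; simp
  inv_val := by
    rw [← io_mul, ← T_add, ← io_one]; simp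

theorem XU_val : (XU : TT) = sg gx 1 := rfl
theorem YU_val : (YU : TT) = io (T 1) := rfl

theorem X_mul_io (b : LB) : (XU : TT) * io b = sg gx (tauHom b) := by
  rw [XU_val, io, sg_mul_sg, gx, act_gen]
  simp

theorem X_io_comm (b : LB) : (XU : TT) * io b = io (tauHom b) * XU := by
  rw [X_mul_io, XU_val, io, sg_mul_sg]
  simp

theorem XY_anti : (XU : TT) * YU = -(YU * XU) := by
  rw [YU_val, X_io_comm, tauHom_T1, io_neg, neg_mul]

theorem io_natCast (n : ℕ) : io (n : LB) = (n : TT) := by
  induction n with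
  | zero => simp only [Nat.cast_zero]; exact sg_zero _
  | succ n ih => rw [Nat.cast_succ, io_add, ih, io_one, Nat.cast_succ]

theorem seven_zero : (7 : TT) = 0 := by
  have h : (7 : LB) = 0 := by
    have : (7 : LB) = C (7 : ZMod 7) := (map_ofNat (C : ZMod 7 →+* LB) 7).symm
    rw [this, show (7 : ZMod 7) = 0 from by decide, map_zero]
  have h2 : io (7 : LB) = (7 : TT) := io_natCast 7
  rw [← h2, h]
  exact sg_zero _

/-- the plus-minus commuting relation -/
def pm {R : Type*} [Ring R] (a b : Rˣ) : Prop := a * b = b * a ∨ (a : R) * b = -(b * a)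

theorem pm_symm {R : Type*} [Ring R] {a b : Rˣ} (h : pm a b) : pm b a := by
  rcases h with h | h
  · exact Or.inl h.symm
  · right; rw [h, neg_neg]

theorem pm_refl {R : Type*} [Ring R] (a : Rˣ) : pm a a := Or.inl rfl

theorem pm_one {R : Type*} [Ring R] (a : Rˣ) : pm a 1 := Or.inl (by simp)

theorem pm_mul {R : Type*} [Ring R] {a b c : Rˣ} (h : pm a b) (h' : pm a c) : pm a (b * c) := by
  rcases h with h | h <;> rcases h' with h' | h'
  · left
    rw [← mul_assoc, h, mul_assoc, h', mul_assoc]
  · right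
    have hh : (a : R) * b = b * a := by
      have := congrArg Units.val h
      simpa using this
    simp only [Units.val_mul]
    rw [← mul_assoc, hh, mul_assoc, h', mul_neg, mul_assoc]
  · right
    have hh : (a : R) * c = c * a := by
      have := congrArg Units.val h'
      simpa using this
    simp only [Units.val_mul]
    rw [← mul_assoc, h, neg_mul, mul_assoc, hh, mul_assoc]
  · left
    ext
    simp only [Units.val_mul]
    rw [← mul_assoc, h, neg_mul, mul_assoc, h', mul_neg, neg_neg, mul_assoc]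

theorem pm_inv {R : Type*} [Ring R] {a b : Rˣ} (h : pm a b) : pm a b⁻¹ := by
  rcases h with h | h
  · left
    rw [eq_inv_mul_iff_mul_eq, ← mul_assoc, ← h, mul_assoc, mul_inv_cancel, mul_one]
  · right
    have h1 : ((b⁻¹ : Rˣ) : R) * ((a : R) * b) * (b⁻¹ : Rˣ) = ((b⁻¹ : Rˣ) : R) * a := by
      rw [mul_assoc, mul_assoc, Units.mul_inv, mul_one]
    rw [← h1, h]
    simp

theorem pm_closure {R : Type*} [Ring R] {a b : Rˣ} (h : pm a b) :
    ∀ p ∈ Subgroup.closure ({a, b} : Set Rˣ), ∀ q ∈ Subgroup.closure ({a, b} : Set Rˣ),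
      pm p q := by
  have step : ∀ c : Rˣ, pm c a → pm c b → ∀ q ∈ Subgroup.closure ({a, b} : Set Rˣ), pm c q := by
    intro c hca hcb q hq
    induction hq using Subgroup.closure_induction with
    | mem x hx =>
      rcases hx with rfl | rfl
      · exact hca
      · exact hcb
    | one => exact pm_one c
    | mul x y _ _ h1 h2 => exact pm_mul h1 h2
    | inv x _ h1 => exact pm_inv h1
  intro p hp q hq
  apply step p _ _ q hq
  · exact pm_symm (step a (pm_refl a) h p hp)
  · exact pm_symm (step b (pm_symm h) (pm_refl b) p hp)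

/-- the group of linear parts -/
def QQ : Subgroup TTˣ := Subgroup.closure {XU, YU}

theorem XU_mem : XU ∈ QQ := Subgroup.subset_closure (by simp)
theorem YU_mem : YU ∈ QQ := Subgroup.subset_closure (by simp)

theorem QQ_pm (p : TTˣ) (hp : p ∈ QQ) (q : TTˣ) (hq : q ∈ QQ) :
    p * q = q * p ∨ (p : TT) * q = -(q * p) :=
  pm_closure (Or.inr XY_anti) p hp q hq

theorem unit_monomial (p : TTˣ) : ∃ (g : Multiplicative ℤ) (b : LB), (p : TT) = sg g b := by
  apply TT_monomial (g := ((p⁻¹ : TTˣ) : TT)) (c := 1)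
  · rw [Units.mul_inv]; exact one_ne_zero
  · intro x hx
    rw [Units.mul_inv, cf_one, if_neg (fun h => hx h.symm)]

theorem two_ne_zero_TT : (2 : TT) ≠ 0 := by
  intro h
  have h2 : io (2 : LB) = (2 : TT) := io_natCast 2
  rw [← h2, io, sg_eq_zero] at h
  have h3 : (2 : LB) = C (2 : ZMod 7) := (map_ofNat (C : ZMod 7 →+* LB) 2).symm
  rw [h3] at h
  have h4 := congrArg (fun f : LB => f.coeff 0) h
  simp at h4
  exact absurd h4 (by decide)

theorem del_ne_zero (p q : TTˣ) (hpq : (p : TT) * q = -(q * p)) : del (p : TT) q ≠ 0 := by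
  intro h0
  have h1 : ((1 : TT) + (p : TT)) * ((q : TT) * (1 - (q : TT) * (q : TT))) = -1 := by
    unfold del at h0
    exact eq_neg_of_add_eq_zero_right h0
  obtain ⟨g, b, hp⟩ := unit_monomial p
  obtain ⟨g', b', hq⟩ := unit_monomial q
  have hb : b ≠ 0 := by
    rintro rfl
    rw [sg_zero] at hp
    exact p.ne_zero hp
  have hb' : b' ≠ 0 := by
    rintro rfl
    rw [sg_zero] at hq
    exact q.ne_zero hq
  -- `1 + p` is a monomial
  have hneg : ∀ x : Multiplicative ℤ, x ≠ 1 → cf (-1 : TT) x = 0 := by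
    intro x hx
    rw [cf_neg, cf_one, if_neg (fun h => hx h.symm), neg_zero]
  have hm1 : (-1 : TT) ≠ 0 := neg_ne_zero.mpr one_ne_zero
  obtain ⟨a, r, h2⟩ := TT_monomial (f := (1 : TT) + (p : TT))
    (g := (q : TT) * (1 - (q : TT) * (q : TT)))
    (c := 1) (by rw [h1]; exact hm1) (by rw [h1]; exact hneg)
  have hg : g = 1 := by
    by_contra hg
    have hg1 : ¬ (1 : Multiplicative ℤ) = g := fun h => hg h.symm
    have c1 := congrArg (fun f : TT => cf f 1) h2
    have c2 := congrArg (fun f : TT => cf f g) h2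
    simp only [hp, cf_add, cf_one, cf_sg, if_neg hg, if_true, add_zero] at c1 c2
    rw [if_neg hg1, zero_add] at c2
    have ha : a = 1 := by
      by_contra ha
      rw [if_neg ha] at c1
      exact one_ne_zero c1
    rw [ha, if_neg hg1] at c2
    exact hb c2
  -- the other factor
  have h3 : ((q : TT) * (1 - (q : TT) * (q : TT))) * ((1 : TT) + (p : TT)) = -1 := by
    have hne : ((q : TT) * (1 - (q : TT) * (q : TT))) ≠ 0 := by
      intro h
      rw [h, mul_zero] at h1
      exact hm1 h1.symm
    have h4 : (((q : TT) * (1 - (q : TT) * (q : TT))) * ((1 : TT) + (p : TT)) + 1) *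
        ((q : TT) * (1 - (q : TT) * (q : TT))) = 0 := by
      rw [add_mul, mul_assoc ((q : TT) * (1 - (q : TT) * (q : TT))), h1, mul_neg, mul_one,
        one_mul, neg_add_cancel]
    rcases TT_eq_zero h4 with h5 | h5
    · exact eq_neg_of_add_eq_zero_left h5
    · exact absurd h5 hne
  obtain ⟨a', r', h6⟩ := TT_monomial (f := (q : TT) * (1 - (q : TT) * (q : TT)))
    (g := (1 : TT) + (p : TT))
    (c := 1) (by rw [h3]; exact hm1) (by rw [h3]; exact hneg)
  have h7 : (1 : TT) - (q : TT) * (q : TT) = ((q⁻¹ : TTˣ) : TT) * sg a' r' := by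
    rw [← h6, ← mul_assoc, Units.inv_mul, one_mul]
  obtain ⟨g'', b'', hq'⟩ := unit_monomial q⁻¹
  rw [hq', sg_mul_sg, hq, sg_mul_sg] at h7
  have hg' : g' = 1 := by
    by_contra hg'
    have hgg : g' * g' ≠ 1 := by
      intro hh
      apply hg'
      have := congrArg Multiplicative.toAdd hh
      rw [toAdd_mul, toAdd_one] at this
      have h8 : Multiplicative.toAdd g' = 0 := by omega
      exact Multiplicative.toAdd.injective h8
    have hgg1 : ¬ (1 : Multiplicative ℤ) = g' * g' := fun h => hgg h.symm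
    have hbb : b' * g' • b' ≠ 0 :=
      mul_ne_zero hb' (fun h => hb' ((smul_eq_zero_iff_eq g').mp h))
    have c1 := congrArg (fun f : TT => cf f 1) h7
    have c2 := congrArg (fun f : TT => cf f (g' * g')) h7
    simp only [cf_sub, cf_one, cf_sg, if_neg hgg, if_true, sub_zero] at c1 c2
    rw [if_neg hgg1, zero_sub] at c2
    have ha : g'' * a' = 1 := by
      by_contra ha
      rw [if_neg ha] at c1
      exact one_ne_zero c1
    rw [ha, if_neg hgg1] at c2
    exact hbb (neg_eq_zero.mp c2)
  -- now `p` and `q` commute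
  have h8 : (p : TT) * q = q * p := by
    rw [hp, hq, hg, hg', sg_mul_sg, sg_mul_sg]
    simp [mul_comm]
  rw [h8] at hpq
  have h9 : (2 : TT) * ((q : TT) * (p : TT)) = 0 := by
    rw [two_mul]
    nth_rewrite 1 [hpq]
    exact neg_add_cancel _
  rcases TT_eq_zero h9 with h10 | h10
  · exact two_ne_zero_TT h10
  · rw [← Units.val_mul] at h10
    exact (q * p).ne_zero h10

theorem QQ_del (p : TTˣ) (_ : p ∈ QQ) (q : TTˣ) (_ : q ∈ QQ) (h : (p : TT) * q = -(q * p))
    (t : TT) (ht : t * del (p : TT) q = 0) : t = 0 := by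
  rcases TT_eq_zero ht with h1 | h1
  · exact h1
  · exact absurd h1 (del_ne_zero p q h)

end

end Pool.Agent.H6
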