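import Mathlib

set_option autoImplicit false

namespace Pool.Agent.H6

open SkewMonoidAlgebra

variable {k G : Type*} [Ring k] [Group G] [MulSemiringAction G k]

/-- The coefficient of a uniquely represented product in a skew group ring. -/
theorem skew_coeff_uniqueMul {f g : SkewMonoidAlgebra k G} {a0 b0 : G}
    (h : UniqueMul f.support g.support a0 b0) :
    (f * g).coeff (a0 * b0) = f.coeff a0 * a0 • g.coeff b0 := by
  classical
  rw [SkewMonoidAlgebra.coeff_mul]
  simp only [SkewMonoidAlgebra.sum_def']
  rw [← Finset.sum_product']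
  refine (Finset.sum_eq_single (a0, b0) ?_ ?_).trans (if_pos rfl) <;> simp_rw [Finset.mem_product]
  · refine fun ab hab hne ↦ if_neg (fun he ↦ hne <| Prod.ext ?_ ?_)
    exacts [(h hab.1 hab.2 he).1, (h hab.1 hab.2 he).2]
  · refine fun hnotMem ↦ ite_eq_right_iff.mpr (fun _ ↦ ?_)
    rcases not_and_or.mp hnotMem with af | bg
    · rw [SkewMonoidAlgebra.notMem_support_iff.mp af, zero_mul]
    · rw [SkewMonoidAlgebra.notMem_support_iff.mp bg, smul_zero, mul_zero]

theorem skew_coeff_ne_zero [NoZeroDivisors k] {f g : SkewMonoidAlgebra k G} {a0 b0 : G}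
    (ha : a0 ∈ f.support) (hb : b0 ∈ g.support)
    (h : UniqueMul f.support g.support a0 b0) :
    (f * g).coeff (a0 * b0) ≠ 0 := by
  rw [skew_coeff_uniqueMul h]
  refine mul_ne_zero (SkewMonoidAlgebra.mem_support_iff.mp ha) ?_
  intro h0
  exact SkewMonoidAlgebra.mem_support_iff.mp hb ((smul_eq_zero_iff_eq a0).mp h0)

/-- A skew group ring of a group with unique products over a domain has no zero divisors. -/
theorem skew_mul_eq_zero [NoZeroDivisors k] [UniqueProds G] {f g : SkewMonoidAlgebra k G}
    (h : f * g = 0) : f = 0 ∨ g = 0 := by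
  classical
  by_contra hcon
  push Not at hcon
  obtain ⟨hf, hg⟩ := hcon
  have hf' : f.support.Nonempty := by
    rw [Finset.nonempty_iff_ne_empty]
    intro h0
    exact hf (SkewMonoidAlgebra.support_eq_empty.mp h0)
  have hg' : g.support.Nonempty := by
    rw [Finset.nonempty_iff_ne_empty]
    intro h0
    exact hg (SkewMonoidAlgebra.support_eq_empty.mp h0)
  obtain ⟨a0, ha, b0, hb, hu⟩ := UniqueProds.uniqueMul_of_nonempty hf' hg'
  have := skew_coeff_ne_zero ha hb hu
  rw [h] at this
  simp at this

/-- If a product is supported at one element only, the left factor is supported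
in at most one element. -/
theorem skew_monomial_left [NoZeroDivisors k] [TwoUniqueProds G] {f g : SkewMonoidAlgebra k G}
    {c : G} (hfg : f * g ≠ 0) (h : ∀ x, x ≠ c → (f * g).coeff x = 0) :
    ∃ (a : G) (r : k), f = single a r := by
  classical
  have hf : f ≠ 0 := by rintro rfl; simp at hfg
  have hg : g ≠ 0 := by rintro rfl; simp at hfg
  have hf' : f.support.Nonempty := by
    rw [Finset.nonempty_iff_ne_empty]
    intro h0
    exact hf (SkewMonoidAlgebra.support_eq_empty.mp h0)
  have hg' : g.support.Nonempty := by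
    rw [Finset.nonempty_iff_ne_empty]
    intro h0
    exact hg (SkewMonoidAlgebra.support_eq_empty.mp h0)
  have hcard : ¬ (1 < f.support.card * g.support.card) := by
    intro hc
    obtain ⟨p1, hp1, p2, hp2, hne, hu1, hu2⟩ := TwoUniqueProds.uniqueMul_of_one_lt_card hc
    rw [Finset.mem_product] at hp1 hp2
    have h1 := skew_coeff_ne_zero hp1.1 hp1.2 hu1
    have h2 := skew_coeff_ne_zero hp2.1 hp2.2 hu2
    have e1 : p1.1 * p1.2 = c := by
      by_contra hh
      exact h1 (h _ hh)
    have e2 : p2.1 * p2.2 = c := by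
      by_contra hh
      exact h2 (h _ hh)
    obtain ⟨h3, h4⟩ := hu1 hp2.1 hp2.2 (e2.trans e1.symm)
    exact hne (Prod.ext h3.symm h4.symm)
  have hfc : f.support.card = 1 := by
    have h1 := Finset.card_pos.mpr hf'
    have h2 := Finset.card_pos.mpr hg'
    nlinarith
  obtain ⟨a, ha⟩ := Finset.card_eq_one.mp hfc
  refine ⟨a, f.coeff a, ?_⟩
  ext x
  rw [SkewMonoidAlgebra.coeff_single_apply]
  split_ifs with hx
  · rw [hx]
  · rw [← SkewMonoidAlgebra.notMem_support_iff, ha, Finset.mem_singleton]
    exact fun h => hx h.symm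

end Pool.Agent.H6
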