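import Pool.Agent.H6.AffLaws

set_option autoImplicit false

namespace Pool.Agent.H6

open Aff

/-! ### The words -/

/-- first generator -/
def wx : FreeGroup (Fin 2) := FreeGroup.of 0
/-- second generator -/
def wy : FreeGroup (Fin 2) := FreeGroup.of 1
/-- the commutator of the generators -/
def wz : FreeGroup (Fin 2) := wx * wy * wx⁻¹ * wy⁻¹
/-- the commutator of `x` and `y ^ 2` -/
def wt : FreeGroup (Fin 2) := wx * wy ^ 2 * (wy ^ 2 * wx)⁻¹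
def wt1 : FreeGroup (Fin 2) := wt * (wy ^ 2 * wt * (wy ^ 2)⁻¹)⁻¹
def wt2 : FreeGroup (Fin 2) := wy * wt1 * wy⁻¹
def wt3 : FreeGroup (Fin 2) := wt2 * (wx * wt2 * wx⁻¹)
def wtd : FreeGroup (Fin 2) := wt * wt3
def om1 : FreeGroup (Fin 2) := (wy * wtd * wy⁻¹)⁻¹
def nu1 : FreeGroup (Fin 2) := wz * om1 * wz⁻¹ * om1⁻¹
def s4 : FreeGroup (Fin 2) := wt * (wy * wt * wy⁻¹)⁻¹
def s5 : FreeGroup (Fin 2) := wy * s4 * wy⁻¹
def s6 : FreeGroup (Fin 2) := s5 * (wy ^ 2 * s5 * (wy ^ 2)⁻¹)⁻¹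
def s7 : FreeGroup (Fin 2) := wy * s6 * wy⁻¹
def s8 : FreeGroup (Fin 2) := s5 * (s7 * s7)
def om2 : FreeGroup (Fin 2) := s8 * s8 * s8
def nu2 : FreeGroup (Fin 2) := wz * om2 * wz⁻¹ * om2⁻¹
/-- the non-primitive element -/
def wh : FreeGroup (Fin 2) := wz * (wy * wt * wy⁻¹) * wz⁻¹ * (wy * wt * wy⁻¹)⁻¹ * wx
/-- the endomorphism -/
def gal : Fin 2 → FreeGroup (Fin 2) := ![nu1 * wx, nu2 * wy]

variable {R : Type*} [Ring R]

theorem mul_inv_of_u_eq (a b : Aff R) (h : a.u = b.u) : a * b⁻¹ = tr (a.v - b.v) := by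
  ext
  · simp [h]
  · simp [h, sub_eq_add_neg]

theorem map_conj (φ : FreeGroup (Fin 2) →* Aff R) (g w : FreeGroup (Fin 2)) (t : R)
    (h : φ w = tr t) : φ (g * w * g⁻¹) = tr ((φ g).u * t) := by
  rw [map_mul, map_mul, map_inv, h, conj_tr]

theorem map_inv_tr (φ : FreeGroup (Fin 2) →* Aff R) (w : FreeGroup (Fin 2)) (t : R)
    (h : φ w = tr t) : φ w⁻¹ = tr (-t) := by
  rw [map_inv, h, tr_inv]

theorem map_mul_tr (φ : FreeGroup (Fin 2) →* Aff R) (w w' : FreeGroup (Fin 2)) (t t' : R)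
    (h : φ w = tr t) (h' : φ w' = tr t') : φ (w * w') = tr (t + t') := by
  rw [map_mul, h, h', tr_mul]

/-- the vector `m · e` -/
def ehat (p q e1 e2 : R) : R := (1 - q * q) * e1 + (p - 1) * ((1 + q) * e2)

/-- the element `δ` -/
def del (p q : R) : R := 1 + (1 + p) * (q * (1 - q * q))

/-- the element `a₂` -/
def a2 (q : R) : R := (1 + 2 * (q * (1 - q * q))) * (q * (1 - q))

section eval

variable (φ : FreeGroup (Fin 2) →* Aff R) (p q : Rˣ) (e1 e2 : R)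
  (hx : φ wx = ⟨p, e1⟩) (hy : φ wy = ⟨q, e2⟩) (hc : (p : R) * (q * q) = q * q * p)

include hx hy hc

theorem map_wt : φ wt = tr (ehat (p : R) q e1 e2) := by
  have hu : (φ (wx * wy ^ 2)).u = (φ (wy ^ 2 * wx)).u := by
    rw [map_mul, map_mul, map_pow, hx, hy]
    ext
    simp only [Aff.mul_u, pow_two, Units.val_mul]
    exact hc
  rw [wt, map_mul, map_inv, mul_inv_of_u_eq _ _ hu]
  congr 1
  rw [map_mul, map_mul, map_pow, hx, hy, pow_two]
  simp only [Aff.mul_v, Aff.mul_u, Units.val_mul, ehat]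
  noncomm_ring

theorem map_wtd : φ wtd = tr (del (p : R) q * ehat (p : R) q e1 e2) := by
  have h0 := map_wt φ p q e1 e2 hx hy hc
  have hyu : (φ wy).u = q := by rw [hy]
  have hxu : (φ wx).u = p := by rw [hx]
  have hyyu : (φ (wy ^ 2)).u = q * q := by rw [map_pow, pow_two, Aff.mul_u, hyu]
  have h1 : φ wt1 = _ := map_mul_tr φ _ _ _ _ h0 (map_inv_tr φ _ _ (map_conj φ (wy ^ 2) _ _ h0))
  have h2 : φ wt2 = _ := map_conj φ wy _ _ h1
  have h3 : φ wt3 = _ := map_mul_tr φ _ _ _ _ h2 (map_conj φ wx _ _ h2)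
  have h4 : φ wtd = _ := map_mul_tr φ _ _ _ _ h0 h3
  rw [h4, hyu, hxu, hyyu]
  congr 1
  simp only [Units.val_mul, del]
  noncomm_ring

theorem map_s8 : φ s8 = tr (a2 (q : R) * ehat (p : R) q e1 e2) := by
  have h0 := map_wt φ p q e1 e2 hx hy hc
  have hyu : (φ wy).u = q := by rw [hy]
  have hyyu : (φ (wy ^ 2)).u = q * q := by rw [map_pow, pow_two, Aff.mul_u, hyu]
  have h4 : φ s4 = _ := map_mul_tr φ _ _ _ _ h0 (map_inv_tr φ _ _ (map_conj φ wy _ _ h0))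
  have h5 : φ s5 = _ := map_conj φ wy _ _ h4
  have h6 : φ s6 = _ := map_mul_tr φ _ _ _ _ h5 (map_inv_tr φ _ _ (map_conj φ (wy ^ 2) _ _ h5))
  have h7 : φ s7 = _ := map_conj φ wy _ _ h6
  have h8 : φ s8 = _ := map_mul_tr φ _ _ _ _ h5 (map_mul_tr φ _ _ _ _ h7 h7)
  rw [h8, hyu, hyyu]
  congr 1
  simp only [Units.val_mul, a2]
  noncomm_ring

theorem map_om1 : φ om1 = tr (-(q * (del (p : R) q * ehat (p : R) q e1 e2))) := by
  have h0 := map_wtd φ p q e1 e2 hx hy hc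
  have hyu : (φ wy).u = q := by rw [hy]
  have h1 : φ om1 = _ := map_inv_tr φ _ _ (map_conj φ wy _ _ h0)
  rw [h1, hyu]

theorem map_om2 : φ om2 = tr (3 * (a2 (q : R) * ehat (p : R) q e1 e2)) := by
  have h0 := map_s8 φ p q e1 e2 hx hy hc
  have h1 : φ om2 = _ := map_mul_tr φ _ _ _ _ (map_mul_tr φ _ _ _ _ h0 h0) h0
  rw [h1]
  congr 1
  noncomm_ring

end eval

end Pool.Agent.H6
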